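import Mathlib
import Pool.Agent.Lib_helper12.HK.DefsE

/-!
# Project HK, Parts E and F: planar connectivity. Definitions.
-/

set_option autoImplicit false

namespace HK

/-- one step of a nearest neighbour path in `Q` -/
def sn (Q : Set (ℤ × ℤ)) (x y : ℤ × ℤ) : Prop := nn x y ∧ x ∈ Q ∧ y ∈ Q

/-- `O` is `*`-connected, `C` is connected and disjoint from `O`, and all `*`-neighbours of `O`
outside `O` are in `C` -/
structure Sep (O C : Set (ℤ × ℤ)) : Prop where
  star : ∀ x ∈ O, ∀ y ∈ O, Relation.ReflTransGen (st O) x y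
  conn : ∀ x ∈ C, ∀ y ∈ C, Relation.ReflTransGen (sn C) x y
  disj : ∀ x ∈ O, x ∉ C
  bd : ∀ x ∈ O, ∀ y, di x y ≤ 1 → y ∉ O → y ∈ C

end HK
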